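import Mathlib

set_option autoImplicit false

open MeasureTheory Set

noncomputable section

namespace Pool.Agent.Helper519.TH

/-- sign of the position `i` in a block of length `M` -/
def sg (M i : ℕ) : ℝ := if i < M / 2 then 1 else -1

/-- Haar function of the dyadic interval `[2^k a, 2^k (a+1))` -/
def H (k : ℤ) (a : ℕ) (x : ℝ) : ℝ :=
  Set.indicator (Set.Ico ((2:ℝ) ^ k * (a : ℝ)) ((2:ℝ) ^ k * (a : ℝ) + (2:ℝ) ^ (k - 1)))
      (fun _ => (1:ℝ)) x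
    - Set.indicator (Set.Ico ((2:ℝ) ^ k * (a : ℝ) + (2:ℝ) ^ (k - 1))
      ((2:ℝ) ^ k * ((a : ℝ) + 1))) (fun _ => (1:ℝ)) x

/-- the uniform probability measure on `[0,1)` -/
def P : Measure ℝ := volume.restrict (Ico (0:ℝ) 1)

/-- normalised sum of cubes -/
def a3 (n : ℕ) (F : ℕ → ℕ → ℝ) : ℝ :=
  ((4:ℝ) ^ n)⁻¹ * ∑ i ∈ Finset.range (2 ^ n), ∑ j ∈ Finset.range (2 ^ n), |F i j| ^ 3

/-- the discrete form at scale `s` -/
def Lam (n s : ℕ) (F G K : ℕ → ℕ → ℝ) : ℝ :=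
  ((4:ℝ) ^ s)⁻¹ * ((8:ℝ) ^ (n - s))⁻¹ *
    ∑ p ∈ Finset.range (2 ^ s), ∑ q ∈ Finset.range (2 ^ s),
      ∑ i ∈ Finset.range (2 ^ (n - s)), ∑ j ∈ Finset.range (2 ^ (n - s)),
        ∑ l ∈ Finset.range (2 ^ (n - s)),
          sg (2 ^ (n - s)) i * sg (2 ^ (n - s)) j * sg (2 ^ (n - s)) l *
            (F (p * 2 ^ (n - s) + i) (q * 2 ^ (n - s) + j) *
              G (q * 2 ^ (n - s) + j) ((p ^^^ q) * 2 ^ (n - s) + l) *
              K ((p ^^^ q) * 2 ^ (n - s) + l) (p * 2 ^ (n - s) + i))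

/-- the flat finite statement (to be proved by the Bellman function argument) -/
def FSflat : Prop :=
  ∃ C : ℝ, ∀ (n : ℕ) (F G K : ℕ → ℕ → ℝ),
    ∑ s ∈ Finset.range n, |Lam n s F G K| ≤ C * (a3 n F + a3 n G + a3 n K)

/-- the point with cell index `X` and offset `u` on the grid of mesh `2^(-N)` -/
def pt (N X : ℕ) (u : ℝ) : ℝ := ((X : ℝ) + u) / 2 ^ N

/-- the cube of offsets -/
def Q : Measure (ℝ × ℝ × ℝ) := P.prod (P.prod P)

/-- one scale of the form, as in the statement -/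
def T (k : ℤ) (f g h : ℝ × ℝ → ℝ) : ℝ :=
  (2:ℝ) ^ (-k) * ∑' ab : ℕ × ℕ, ∫ x : ℝ, ∫ y : ℝ, ∫ z : ℝ,
    f (x, y) * g (y, z) * h (z, x) * H k ab.1 x * H k ab.2 y * H k (ab.1 ^^^ ab.2) z

/-- good functions -/
def Nice (f : ℝ × ℝ → ℝ) : Prop :=
  Measurable f ∧ HasCompactSupport f ∧ ∃ M : ℝ, ∀ p, |f p| ≤ M

end Pool.Agent.Helper519.TH
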