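import Pool.Agent.Helper519.TH.M_final

set_option autoImplicit false

open MeasureTheory Set

noncomputable section

namespace Pool.Agent.Helper519.TH

/-- the flat statement, in the form of helper71 (all definitions unfolded), implies `FSflat` -/
theorem of71 (h71 : ∃ C : ℝ, ∀ (n : ℕ) (f g h : ℕ → ℕ → ℝ),
    ∑ s ∈ Finset.range n, |(1/4 ^ s) * (1/8 ^ (n - s)) *
      ∑ p ∈ Finset.range (2^s), ∑ q ∈ Finset.range (2^s),
      ∑ i ∈ Finset.range (2^(n-s)), ∑ j ∈ Finset.range (2^(n-s)), ∑ k ∈ Finset.range (2^(n-s)),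
      (if i < 2^(n-s) / 2 then (1:ℝ) else -1) * (if j < 2^(n-s) / 2 then 1 else -1) *
      (if k < 2^(n-s) / 2 then 1 else -1) *
      f (p * 2^(n-s) + i) (q * 2^(n-s) + j) * g (q * 2^(n-s) + j) ((p ^^^ q) * 2^(n-s) + k) *
      h ((p ^^^ q) * 2^(n-s) + k) (p * 2^(n-s) + i)| ≤
      C * ((1/4 ^ n) * ∑ i ∈ Finset.range (2^n), ∑ j ∈ Finset.range (2^n), |f i j| ^ 3 +
        (1/4 ^ n) * ∑ i ∈ Finset.range (2^n), ∑ j ∈ Finset.range (2^n), |g i j| ^ 3 +
        (1/4 ^ n) * ∑ i ∈ Finset.range (2^n), ∑ j ∈ Finset.range (2^n), |h i j| ^ 3)) :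
    FSflat := by
  obtain ⟨C, hC⟩ := h71
  refine ⟨C, fun n F G K => ?_⟩
  have h := hC n F G K
  simp only [one_div] at h
  unfold a3
  refine le_trans (le_of_eq ?_) h
  refine Finset.sum_congr rfl fun s _ => ?_
  congr 1
  unfold Lam sg
  congr 1
  refine Finset.sum_congr rfl fun p _ => Finset.sum_congr rfl fun q _ =>
    Finset.sum_congr rfl fun i _ => Finset.sum_congr rfl fun j _ =>
    Finset.sum_congr rfl fun l _ => ?_
  ring

end Pool.Agent.Helper519.TH
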