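import Pool.Agent.Helper519.TH.Defs

set_option autoImplicit false

open MeasureTheory Set

noncomputable section

namespace Pool.Agent.Helper519.TH

namespace X_Lam_int

-- TARGET: prove this (auxiliary lemmas between the ASSUMED END line and the theorem)

instance Lam_int_fin : IsFiniteMeasure P := by
  constructor
  unfold P
  rw [Measure.restrict_apply_univ, Real.volume_Ico]
  exact ENNReal.ofReal_lt_top

instance Lam_int_finQ : IsFiniteMeasure Q := by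
  unfold Q
  infer_instance

/-- bounded measurable -/
def Lam_int_BM (φ : ℝ × ℝ × ℝ → ℝ) : Prop := Measurable φ ∧ ∃ M : ℝ, ∀ p, |φ p| ≤ M

theorem Lam_int_BM_int {φ : ℝ × ℝ × ℝ → ℝ} (h : Lam_int_BM φ) : Integrable φ Q := by
  obtain ⟨h1, M, hM⟩ := h
  exact Integrable.of_bound h1.aestronglyMeasurable M
    (Filter.Eventually.of_forall (fun x => by rw [Real.norm_eq_abs]; exact hM x))

theorem Lam_int_BM_mul {φ ψ : ℝ × ℝ × ℝ → ℝ} (h : Lam_int_BM φ) (h' : Lam_int_BM ψ) :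
    Lam_int_BM (fun p => φ p * ψ p) := by
  obtain ⟨h1, M, hM⟩ := h
  obtain ⟨h1', M', hM'⟩ := h'
  refine ⟨h1.mul h1', M * M', fun p => ?_⟩
  rw [abs_mul]
  exact mul_le_mul (hM p) (hM' p) (abs_nonneg _) ((abs_nonneg _).trans (hM p))

theorem Lam_int_BM_const (c : ℝ) : Lam_int_BM (fun _ => c) :=
  ⟨measurable_const, |c|, fun _ => le_rfl⟩

theorem Lam_int_BM_cmul (c : ℝ) {φ : ℝ × ℝ × ℝ → ℝ} (h : Lam_int_BM φ) :
    Lam_int_BM (fun p => c * φ p) := Lam_int_BM_mul (Lam_int_BM_const c) h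

theorem Lam_int_BM_sum (t : Finset ℕ) (φ : ℕ → ℝ × ℝ × ℝ → ℝ) (h : ∀ i, Lam_int_BM (φ i)) :
    Lam_int_BM (fun p => ∑ i ∈ t, φ i p) := by
  refine ⟨Finset.measurable_fun_sum _ (fun i _ => (h i).1), ∑ i ∈ t, (h i).2.choose, fun p => ?_⟩
  exact (Finset.abs_sum_le_sum_abs _ _).trans
    (Finset.sum_le_sum (fun i _ => (h i).2.choose_spec p))

theorem Lam_int_BM_cube {φ : ℝ × ℝ × ℝ → ℝ} (h : Lam_int_BM φ) :
    Lam_int_BM (fun p => |φ p| ^ 3) := by
  obtain ⟨h1, M, hM⟩ := h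
  refine ⟨(measurable_norm.comp h1).pow_const 3, M ^ 3, fun p => ?_⟩
  rw [abs_pow, abs_abs]
  exact pow_le_pow_left₀ (abs_nonneg _) (hM p) 3

theorem Lam_int_pt (N X : ℕ) : Measurable (pt N X) := by
  unfold pt
  fun_prop

theorem Lam_int_comp {f : ℝ × ℝ → ℝ} (hf : Nice f) {g : ℝ × ℝ × ℝ → ℝ × ℝ} (hg : Measurable g) :
    Lam_int_BM (fun p => f (g p)) := by
  obtain ⟨h1, _, M, hM⟩ := hf
  exact ⟨h1.comp hg, M, fun p => hM _⟩

theorem Lam_int_a3 (n : ℕ) (F : ℕ → ℕ → ℝ × ℝ × ℝ → ℝ) (h : ∀ i j, Lam_int_BM (F i j)) :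
    Lam_int_BM (fun p => a3 n (fun X Y => F X Y p)) := by
  unfold a3
  apply Lam_int_BM_cmul
  apply Lam_int_BM_sum
  intro i
  apply Lam_int_BM_sum
  intro j
  exact Lam_int_BM_cube (h i j)

theorem Lam_int_L (n s : ℕ) (F G K : ℕ → ℕ → ℝ × ℝ × ℝ → ℝ) (hF : ∀ i j, Lam_int_BM (F i j))
    (hG : ∀ i j, Lam_int_BM (G i j)) (hK : ∀ i j, Lam_int_BM (K i j)) :
    Lam_int_BM (fun p => Lam n s (fun X Y => F X Y p) (fun X Y => G X Y p)
      (fun X Y => K X Y p)) := by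
  unfold Lam
  apply Lam_int_BM_cmul
  apply Lam_int_BM_sum
  intro i1
  apply Lam_int_BM_sum
  intro i2
  apply Lam_int_BM_sum
  intro i3
  apply Lam_int_BM_sum
  intro i4
  apply Lam_int_BM_sum
  intro i5
  apply Lam_int_BM_cmul
  exact Lam_int_BM_mul (Lam_int_BM_mul (hF _ _) (hG _ _)) (hK _ _)

theorem Lam_int (N n s : ℕ) (f g h : ℝ × ℝ → ℝ) (hf : Nice f) (hg : Nice g) (hh : Nice h) :
    Integrable (fun p : ℝ × ℝ × ℝ => Lam n s
      (fun X Y => f (pt N X p.1, pt N Y p.2.1)) (fun Y Z => g (pt N Y p.2.1, pt N Z p.2.2))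
      (fun Z X => h (pt N Z p.2.2, pt N X p.1))) Q ∧
    Integrable (fun p : ℝ × ℝ × ℝ => a3 n (fun X Y => f (pt N X p.1, pt N Y p.2.1))) Q ∧
    Integrable (fun p : ℝ × ℝ × ℝ => a3 n (fun X Y => g (pt N X p.2.1, pt N Y p.2.2))) Q ∧
    Integrable (fun p : ℝ × ℝ × ℝ => a3 n (fun X Y => h (pt N X p.2.2, pt N Y p.1))) Q := by
  have h1 : ∀ X Y, Measurable (fun p : ℝ × ℝ × ℝ => (pt N X p.1, pt N Y p.2.1)) := fun X Y =>
    ((Lam_int_pt N X).comp measurable_fst).prodMk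
      ((Lam_int_pt N Y).comp (measurable_fst.comp measurable_snd))
  have h2 : ∀ X Y, Measurable (fun p : ℝ × ℝ × ℝ => (pt N X p.2.1, pt N Y p.2.2)) := fun X Y =>
    ((Lam_int_pt N X).comp (measurable_fst.comp measurable_snd)).prodMk
      ((Lam_int_pt N Y).comp (measurable_snd.comp measurable_snd))
  have h3 : ∀ X Y, Measurable (fun p : ℝ × ℝ × ℝ => (pt N X p.2.2, pt N Y p.1)) := fun X Y =>
    ((Lam_int_pt N X).comp (measurable_snd.comp measurable_snd)).prodMk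
      ((Lam_int_pt N Y).comp measurable_fst)
  refine ⟨Lam_int_BM_int ?_, Lam_int_BM_int ?_, Lam_int_BM_int ?_, Lam_int_BM_int ?_⟩
  · exact Lam_int_L n s (fun X Y p => f (pt N X p.1, pt N Y p.2.1))
      (fun Y Z p => g (pt N Y p.2.1, pt N Z p.2.2)) (fun Z X p => h (pt N Z p.2.2, pt N X p.1))
      (fun X Y => Lam_int_comp hf (h1 X Y)) (fun X Y => Lam_int_comp hg (h2 X Y))
      (fun X Y => Lam_int_comp hh (h3 X Y))
  · exact Lam_int_a3 n (fun X Y p => f (pt N X p.1, pt N Y p.2.1))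
      (fun X Y => Lam_int_comp hf (h1 X Y))
  · exact Lam_int_a3 n (fun X Y p => g (pt N X p.2.1, pt N Y p.2.2))
      (fun X Y => Lam_int_comp hg (h2 X Y))
  · exact Lam_int_a3 n (fun X Y p => h (pt N X p.2.2, pt N Y p.1))
      (fun X Y => Lam_int_comp hh (h3 X Y))

end X_Lam_int

export X_Lam_int (Lam_int)

end Pool.Agent.Helper519.TH
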