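import Pool.Agent.Helper519.TH.Defs

set_option autoImplicit false

open MeasureTheory Set

noncomputable section

namespace Pool.Agent.Helper519.TH

namespace X_T_eq_sum

-- TARGET: prove this (auxiliary lemmas between the ASSUMED END line and the theorem)

theorem H406_zero (k : ℤ) (a : ℕ) (x : ℝ) (hx : x < (2:ℝ) ^ k * (a : ℝ)) : H k a x = 0 := by
  have h2 : (0 : ℝ) < (2:ℝ) ^ (k - 1) := zpow_pos (by norm_num) _
  unfold H
  rw [Set.indicator_of_notMem, Set.indicator_of_notMem, sub_zero]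
  · intro h
    have := h.1
    linarith
  · intro h
    have := h.1
    linarith

theorem zp406 (L s : ℕ) (k : ℤ) (hk : k + s = L) (a : ℕ) (ha : 2 ^ s ≤ a) :
    (2:ℝ) ^ L ≤ (2:ℝ) ^ k * (a : ℝ) := by
  have h1 : (2:ℝ) ^ L = (2:ℝ) ^ k * (2:ℝ) ^ s := by
    rw [← zpow_natCast (2:ℝ) L, ← hk, zpow_add₀ (by norm_num), zpow_natCast]
  have h2 : ((2:ℝ) ^ s) ≤ (a : ℝ) := by exact_mod_cast ha
  rw [h1]
  exact mul_le_mul_of_nonneg_left h2 (zpow_pos (by norm_num) _).le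

theorem T_eq_sum (L s : ℕ) (k : ℤ) (hk : k + s = L) (f g h : ℝ × ℝ → ℝ)
    (sf : ∀ x y : ℝ, (2:ℝ) ^ L ≤ x ∨ (2:ℝ) ^ L ≤ y → f (x, y) = 0) :
    T k f g h = (2:ℝ) ^ (-k) * ∑ a ∈ Finset.range (2 ^ s), ∑ b ∈ Finset.range (2 ^ s),
      ∫ x : ℝ, ∫ y : ℝ, ∫ z : ℝ,
        f (x, y) * g (y, z) * h (z, x) * H k a x * H k b y * H k (a ^^^ b) z := by
  unfold T
  rw [tsum_eq_sum (s := Finset.range (2 ^ s) ×ˢ Finset.range (2 ^ s)), Finset.sum_product]
  rintro ⟨a, b⟩ hab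
  have hzero : ∀ x y z : ℝ, f (x, y) * g (y, z) * h (z, x) * H k a x * H k b y *
      H k (a ^^^ b) z = 0 := by
    intro x y z
    have hor : 2 ^ s ≤ a ∨ 2 ^ s ≤ b := by
      by_contra hcon
      push Not at hcon
      exact hab (Finset.mem_product.2 ⟨Finset.mem_range.2 hcon.1, Finset.mem_range.2 hcon.2⟩)
    rcases hor with ha | hb
    · rcases lt_or_ge x ((2:ℝ) ^ L) with hx | hx
      · rw [H406_zero k a x (lt_of_lt_of_le hx (zp406 L s k hk a ha))]
        ring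
      · rw [sf x y (Or.inl hx)]
        ring
    · rcases lt_or_ge y ((2:ℝ) ^ L) with hy | hy
      · rw [H406_zero k b y (lt_of_lt_of_le hy (zp406 L s k hk b hb))]
        ring
      · rw [sf x y (Or.inr hy)]
        ring
  simp only [hzero, integral_zero]

end X_T_eq_sum

export X_T_eq_sum (T_eq_sum)

end Pool.Agent.Helper519.TH
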