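import Pool.Agent.Helper519.TH.Defs

set_option autoImplicit false

open MeasureTheory Set

noncomputable section

namespace Pool.Agent.Helper519.TH

namespace X_cell1

-- TARGET: prove this (auxiliary lemmas between the ASSUMED END line and the theorem)

theorem cell1_ii (φ : ℝ → ℝ) (hφ : Measurable φ) (K : ℝ) (hK : ∀ x, |φ x| ≤ K) (a b : ℝ) :
    IntervalIntegrable φ volume a b := by
  rw [intervalIntegrable_iff]
  refine Measure.integrableOn_of_bounded (M := K) ?_ hφ.aestronglyMeasurable ?_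
  · rw [uIoc, Real.volume_Ioc]
    exact ENNReal.ofReal_ne_top
  · exact Filter.Eventually.of_forall fun x => by
      rw [Real.norm_eq_abs]
      exact hK x

theorem cell1_one (N X : ℕ) (φ : ℝ → ℝ) :
    ∫ x in ((X : ℝ) / 2 ^ N)..(((X + 1 : ℕ) : ℝ) / 2 ^ N), φ x =
      ((2:ℝ) ^ N)⁻¹ * ∫ u, φ (pt N X u) ∂P := by
  have h2 : (2:ℝ) ^ N ≠ 0 := by positivity
  have h1 : ∫ u, φ (pt N X u) ∂P = ∫ u in (0:ℝ)..1, φ ((X : ℝ) / 2 ^ N + u / 2 ^ N) := by
    unfold P
    rw [integral_Ico_eq_integral_Ioc, ← intervalIntegral.integral_of_le zero_le_one]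
    refine intervalIntegral.integral_congr fun u _ => ?_
    unfold pt
    rw [add_div]
  rw [h1, intervalIntegral.integral_comp_add_div φ h2, smul_eq_mul, inv_mul_cancel_left₀ h2]
  congr 1
  · ring
  · push_cast
    ring

theorem cell1 (N p q : ℕ) (φ : ℝ → ℝ) (hφ : Measurable φ) (K : ℝ) (hK : ∀ x, |φ x| ≤ K) :
    ∫ x in Ico ((p:ℝ) / 2 ^ N) (((p + q : ℕ):ℝ) / 2 ^ N), φ x =
      ((2:ℝ) ^ N)⁻¹ * ∑ i ∈ Finset.range q, ∫ u, φ (pt N (p + i) u) ∂P := by
  have h2 : (0:ℝ) < 2 ^ N := by positivity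
  have hle : (p:ℝ) / 2 ^ N ≤ ((p + q : ℕ):ℝ) / 2 ^ N := by
    refine div_le_div_of_nonneg_right ?_ h2.le
    exact_mod_cast Nat.le_add_right p q
  rw [integral_Ico_eq_integral_Ioc, ← intervalIntegral.integral_of_le hle]
  clear hle
  induction q with
  | zero => simp
  | succ q ih =>
    rw [Finset.sum_range_succ, mul_add, ← ih, ← cell1_one]
    exact (intervalIntegral.integral_add_adjacent_intervals (cell1_ii φ hφ K hK _ _)
      (cell1_ii φ hφ K hK _ _)).symm

end X_cell1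

export X_cell1 (cell1)

end Pool.Agent.Helper519.TH
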