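import Pool.Agent.Helper519.TH.Defs
import Pool.Agent.Helper519.TH.M_cell1

set_option autoImplicit false

open MeasureTheory Set

noncomputable section

namespace Pool.Agent.Helper519.TH

namespace X_haar1

-- TARGET: prove this (auxiliary lemmas between the ASSUMED END line and the theorem)

theorem haar1 (N m : ℕ) (k : ℤ) (hm : 1 ≤ m) (hk : (m:ℤ) = N + k) (a : ℕ) (φ : ℝ → ℝ)
    (hφ : Measurable φ) (K : ℝ) (hK : ∀ x, |φ x| ≤ K) :
    ∫ x, φ x * H k a x = ((2:ℝ) ^ N)⁻¹ * ∑ i ∈ Finset.range (2 ^ m), sg (2 ^ m) i *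
      ∫ u, φ (pt N (a * 2 ^ m + i) u) ∂P := by
  obtain ⟨m', rfl⟩ : ∃ m', m = m' + 1 := ⟨m - 1, by omega⟩
  have e1 : (2:ℝ) ^ k = 2 ^ (m' + 1) / 2 ^ N := by
    have h : k = ((m' + 1 : ℕ) : ℤ) - (N : ℤ) := by omega
    rw [h, zpow_sub₀ two_ne_zero, zpow_natCast, zpow_natCast]
  have e2 : (2:ℝ) ^ (k - 1) = 2 ^ m' / 2 ^ N := by
    have h : k - 1 = (m' : ℤ) - (N : ℤ) := by
      push_cast at hk
      omega
    rw [h, zpow_sub₀ two_ne_zero, zpow_natCast, zpow_natCast]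
  have p1 : (2:ℝ) ^ k * (a : ℝ) = ((a * 2 ^ (m' + 1) : ℕ) : ℝ) / 2 ^ N := by
    rw [e1]; push_cast; ring
  have p2 : (2:ℝ) ^ k * (a : ℝ) + (2:ℝ) ^ (k - 1)
      = ((a * 2 ^ (m' + 1) + 2 ^ m' : ℕ) : ℝ) / 2 ^ N := by
    rw [e1, e2]; push_cast; ring
  have p3 : (2:ℝ) ^ k * ((a : ℝ) + 1)
      = ((a * 2 ^ (m' + 1) + 2 ^ m' + 2 ^ m' : ℕ) : ℝ) / 2 ^ N := by
    rw [e1]; push_cast; ring
  have hInt : ∀ u v : ℝ, Integrable (Set.indicator (Ico u v) φ) := by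
    intro u v
    rw [integrable_indicator_iff measurableSet_Ico]
    refine Measure.integrableOn_of_bounded (M := K) (by simp) hφ.aestronglyMeasurable ?_
    exact Filter.Eventually.of_forall fun x => by simpa using hK x
  have hpt : ∀ x, φ x * H k a x
      = Set.indicator (Ico (((a * 2 ^ (m' + 1) : ℕ) : ℝ) / 2 ^ N)
          (((a * 2 ^ (m' + 1) + 2 ^ m' : ℕ) : ℝ) / 2 ^ N)) φ x
        - Set.indicator (Ico (((a * 2 ^ (m' + 1) + 2 ^ m' : ℕ) : ℝ) / 2 ^ N)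
          (((a * 2 ^ (m' + 1) + 2 ^ m' + 2 ^ m' : ℕ) : ℝ) / 2 ^ N)) φ x := by
    intro x
    unfold H
    rw [p2, p1, p3]
    simp only [Set.indicator_apply]
    split_ifs <;> ring
  rw [integral_congr_ae (Filter.Eventually.of_forall hpt),
    integral_sub (hInt _ _) (hInt _ _), integral_indicator measurableSet_Ico,
    integral_indicator measurableSet_Ico, cell1 N _ _ φ hφ K hK, cell1 N _ _ φ hφ K hK,
    ← mul_sub]
  congr 1
  have hM : (2:ℕ) ^ (m' + 1) = 2 ^ m' + 2 ^ m' := by ring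
  have hh : (2 ^ m' + 2 ^ m') / 2 = 2 ^ m' := by omega
  have hsplit : ∑ i ∈ Finset.range (2 ^ (m' + 1)), sg (2 ^ (m' + 1)) i *
      ∫ u, φ (pt N (a * 2 ^ (m' + 1) + i) u) ∂P
      = ∑ i ∈ Finset.range (2 ^ m' + 2 ^ m'), sg (2 ^ m' + 2 ^ m') i *
      ∫ u, φ (pt N (a * 2 ^ (m' + 1) + i) u) ∂P := by
    rw [hM]
  rw [hsplit, Finset.sum_range_add, sub_eq_add_neg, ← Finset.sum_neg_distrib]
  congr 1
  · refine Finset.sum_congr rfl fun i hi => ?_
    have hi' := Finset.mem_range.mp hi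
    have : sg (2 ^ m' + 2 ^ m') i = 1 := by
      unfold sg
      rw [hh, if_pos hi']
    rw [this, one_mul]
  · refine Finset.sum_congr rfl fun i hi => ?_
    have : sg (2 ^ m' + 2 ^ m') (2 ^ m' + i) = -1 := by
      unfold sg
      rw [hh, if_neg (by omega)]
    rw [this, add_assoc, neg_one_mul]

end X_haar1

export X_haar1 (haar1)

end Pool.Agent.Helper519.TH
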