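import Pool.Agent.Helper519.TH.Defs
import Pool.Agent.Helper519.TH.M_haar1

set_option autoImplicit false

open MeasureTheory Set

noncomputable section

namespace Pool.Agent.Helper519.TH

namespace X_haar3

-- TARGET: prove this (auxiliary lemmas between the ASSUMED END line and the theorem)


theorem P_prob : IsProbabilityMeasure P := by
  refine ⟨?_⟩
  unfold P
  rw [Measure.restrict_apply_univ, Real.volume_Ico]
  simp

/-- bounded and measurable -/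
def Bdm {α : Type} [MeasurableSpace α] (f : α → ℝ) : Prop := Measurable f ∧ ∃ K : ℝ, ∀ x, |f x| ≤ K

theorem Bdm.integrable {α : Type} [MeasurableSpace α] {f : α → ℝ} (h : Bdm f) (μ : Measure α)
    [IsFiniteMeasure μ] : Integrable f μ := by
  obtain ⟨h1, K, hK⟩ := h
  exact Integrable.of_bound h1.aestronglyMeasurable K (Filter.Eventually.of_forall hK)

theorem Bdm.const_mul {α : Type} [MeasurableSpace α] {f : α → ℝ} (h : Bdm f) (c : ℝ) :
    Bdm (fun x => c * f x) := by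
  obtain ⟨h1, K, hK⟩ := h
  refine ⟨h1.const_mul c, |c| * K, fun x => ?_⟩
  rw [abs_mul]
  exact mul_le_mul_of_nonneg_left (hK x) (abs_nonneg c)

theorem Bdm.sum {α ι : Type} [MeasurableSpace α] (s : Finset ι) {f : ι → α → ℝ} (h : ∀ i ∈ s, Bdm (f i)) :
    Bdm (fun x => ∑ i ∈ s, f i x) := by
  classical
  induction s using Finset.induction_on with
  | empty => exact ⟨by simpa using measurable_const, 0, fun x => by simp⟩
  | insert a s ha ih =>
    obtain ⟨h1, K, hK⟩ := ih (fun i hi => h i (Finset.mem_insert_of_mem hi))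
    obtain ⟨h2, K', hK'⟩ := h a (Finset.mem_insert_self a s)
    simp only [Finset.sum_insert ha]
    refine ⟨h2.add h1, K' + K, fun x => ?_⟩
    exact le_trans (abs_add_le _ _) (add_le_add (hK' x) (hK x))

theorem Bdm.comp {α β : Type} [MeasurableSpace α] [MeasurableSpace β] {f : α → ℝ} (h : Bdm f)
    {g : β → α} (hg : Measurable g) : Bdm (fun x => f (g x)) := by
  obtain ⟨h1, K, hK⟩ := h
  exact ⟨h1.comp hg, K, fun x => hK _⟩

theorem Bdm.int {α β : Type} [MeasurableSpace α] [MeasurableSpace β] (ν : Measure β)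
    [IsProbabilityMeasure ν] {f : α × β → ℝ} (h : Bdm f) :
    Bdm (fun x => ∫ y, f (x, y) ∂ν) := by
  obtain ⟨h1, K, hK⟩ := h
  refine ⟨?_, K, fun x => ?_⟩
  · exact (StronglyMeasurable.integral_prod_right (f := fun x y => f (x, y)) h1.stronglyMeasurable).measurable
  · have := norm_integral_le_of_norm_le_const (μ := ν) (f := fun y => f (x, y)) (C := K)
      (Filter.Eventually.of_forall (fun y => hK (x, y)))
    simpa using this

theorem pt_meas (N X : ℕ) : Measurable (pt N X) := by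
  unfold pt
  fun_prop

theorem haar1b (N m : ℕ) (k : ℤ) (hm : 1 ≤ m) (hk : (m:ℤ) = N + k) (a : ℕ) (φ : ℝ → ℝ)
    (hφ : Bdm φ) :
    ∫ x, φ x * H k a x = ((2:ℝ) ^ N)⁻¹ * ∑ i ∈ Finset.range (2 ^ m), sg (2 ^ m) i *
      ∫ u, φ (pt N (a * 2 ^ m + i) u) ∂P := by
  obtain ⟨h1, K, hK⟩ := hφ
  exact haar1 N m k hm hk a φ h1 K hK

theorem haar3 (N m : ℕ) (k : ℤ) (hm : 1 ≤ m) (hk : (m:ℤ) = N + k) (a b c : ℕ)
    (Φ : ℝ × ℝ × ℝ → ℝ) (hΦ : Measurable Φ) (K : ℝ) (hK : ∀ p, |Φ p| ≤ K) :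
    ∫ x : ℝ, ∫ y : ℝ, ∫ z : ℝ, Φ (x, y, z) * H k a x * H k b y * H k c z =
      (((2:ℝ) ^ N)⁻¹) ^ 3 * ∑ i ∈ Finset.range (2 ^ m), ∑ j ∈ Finset.range (2 ^ m),
        ∑ l ∈ Finset.range (2 ^ m), sg (2 ^ m) i * sg (2 ^ m) j * sg (2 ^ m) l *
          ∫ p : ℝ × ℝ × ℝ, Φ (pt N (a * 2 ^ m + i) p.1, pt N (b * 2 ^ m + j) p.2.1,
            pt N (c * 2 ^ m + l) p.2.2) ∂Q := by
  haveI := P_prob
  have hB : Bdm Φ := ⟨hΦ, K, hK⟩
  -- inner integrals
  have hG2 : ∀ x y, ∫ z, Φ (x, y, z) * H k c z = ((2:ℝ) ^ N)⁻¹ * ∑ l ∈ Finset.range (2 ^ m),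
      sg (2 ^ m) l * ∫ w, Φ (x, y, pt N (c * 2 ^ m + l) w) ∂P := by
    intro x y
    exact haar1b N m k hm hk c (fun z => Φ (x, y, z)) (hB.comp (by fun_prop))
  have hF : ∀ l : ℕ, Bdm (fun p : ℝ × ℝ => ∫ w, Φ (p.1, p.2, pt N (c * 2 ^ m + l) w) ∂P) := by
    intro l
    have := Bdm.int P (f := fun q : (ℝ × ℝ) × ℝ => Φ (q.1.1, q.1.2, pt N (c * 2 ^ m + l) q.2))
      (hB.comp (by
        have := pt_meas N (c * 2 ^ m + l)
        fun_prop))
    exact this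
  have hG2b : ∀ x, Bdm (fun y => ((2:ℝ) ^ N)⁻¹ * ∑ l ∈ Finset.range (2 ^ m),
      sg (2 ^ m) l * ∫ w, Φ (x, y, pt N (c * 2 ^ m + l) w) ∂P) := by
    intro x
    refine Bdm.const_mul (Bdm.sum _ (fun l _ => Bdm.const_mul ?_ _)) _
    exact (hF l).comp (g := fun y => (x, y)) (by fun_prop)
  have hBjl : ∀ j l : ℕ, Bdm (fun x : ℝ => ∫ q : ℝ × ℝ, Φ (x, pt N (b * 2 ^ m + j) q.1,
      pt N (c * 2 ^ m + l) q.2) ∂(P.prod P)) := by
    intro j l
    have := Bdm.int (P.prod P) (f := fun q : ℝ × (ℝ × ℝ) => Φ (q.1, pt N (b * 2 ^ m + j) q.2.1,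
      pt N (c * 2 ^ m + l) q.2.2)) (hB.comp (by
        have h1 := pt_meas N (c * 2 ^ m + l)
        have h2 := pt_meas N (b * 2 ^ m + j)
        fun_prop))
    exact this
  have hG1 : ∀ x, ∫ y, (((2:ℝ) ^ N)⁻¹ * ∑ l ∈ Finset.range (2 ^ m),
      sg (2 ^ m) l * ∫ w, Φ (x, y, pt N (c * 2 ^ m + l) w) ∂P) * H k b y =
      ((2:ℝ) ^ N)⁻¹ * ∑ j ∈ Finset.range (2 ^ m), sg (2 ^ m) j * (((2:ℝ) ^ N)⁻¹ *
        ∑ l ∈ Finset.range (2 ^ m), sg (2 ^ m) l *
        ∫ q : ℝ × ℝ, Φ (x, pt N (b * 2 ^ m + j) q.1, pt N (c * 2 ^ m + l) q.2) ∂(P.prod P)) := by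
    intro x
    rw [haar1b N m k hm hk b _ (hG2b x)]
    congr 1
    refine Finset.sum_congr rfl (fun j _ => ?_)
    congr 1
    have hpj := pt_meas N (b * 2 ^ m + j)
    have hFl : ∀ l : ℕ, Bdm (fun v => ∫ w, Φ (x, pt N (b * 2 ^ m + j) v, pt N (c * 2 ^ m + l) w) ∂P) :=
      fun l => (hF l).comp (g := fun v => (x, pt N (b * 2 ^ m + j) v)) (by fun_prop)
    rw [integral_const_mul, integral_finsetSum _ (fun l _ => ((hFl l).const_mul _).integrable P)]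
    congr 1
    refine Finset.sum_congr rfl (fun l _ => ?_)
    rw [integral_const_mul]
    congr 1
    have hpl := pt_meas N (c * 2 ^ m + l)
    have hint : Integrable (fun q : ℝ × ℝ => Φ (x, pt N (b * 2 ^ m + j) q.1, pt N (c * 2 ^ m + l) q.2))
        (P.prod P) :=
      (hB.comp (g := fun q : ℝ × ℝ => (x, pt N (b * 2 ^ m + j) q.1, pt N (c * 2 ^ m + l) q.2))
        (by fun_prop)).integrable _
    exact (integral_prod _ hint).symm
  have hG1b : Bdm (fun x => ((2:ℝ) ^ N)⁻¹ * ∑ j ∈ Finset.range (2 ^ m), sg (2 ^ m) j * (((2:ℝ) ^ N)⁻¹ *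
        ∑ l ∈ Finset.range (2 ^ m), sg (2 ^ m) l *
        ∫ q : ℝ × ℝ, Φ (x, pt N (b * 2 ^ m + j) q.1, pt N (c * 2 ^ m + l) q.2) ∂(P.prod P))) := by
    refine Bdm.const_mul (Bdm.sum _ (fun j _ => Bdm.const_mul (Bdm.const_mul
      (Bdm.sum _ (fun l _ => Bdm.const_mul (hBjl j l) _)) _) _)) _
  have hL : ∀ x, ∫ y : ℝ, ∫ z : ℝ, Φ (x, y, z) * H k a x * H k b y * H k c z =
      (((2:ℝ) ^ N)⁻¹ * ∑ j ∈ Finset.range (2 ^ m), sg (2 ^ m) j * (((2:ℝ) ^ N)⁻¹ *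
        ∑ l ∈ Finset.range (2 ^ m), sg (2 ^ m) l *
        ∫ q : ℝ × ℝ, Φ (x, pt N (b * 2 ^ m + j) q.1, pt N (c * 2 ^ m + l) q.2) ∂(P.prod P)))
        * H k a x := by
    intro x
    rw [← hG1 x, ← integral_mul_const]
    refine integral_congr_ae (Filter.Eventually.of_forall (fun y => ?_))
    show ∫ z : ℝ, Φ (x, y, z) * H k a x * H k b y * H k c z = _
    have e1 : (fun z : ℝ => Φ (x, y, z) * H k a x * H k b y * H k c z) =
        fun z => (Φ (x, y, z) * H k c z) * (H k b y * H k a x) := by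
      funext z; ring
    rw [e1, integral_mul_const, hG2]
    ring
  rw [integral_congr_ae (Filter.Eventually.of_forall hL), haar1b N m k hm hk a _ hG1b]
  have hfin : ∀ i : ℕ, ∫ u, ((2:ℝ) ^ N)⁻¹ * ∑ j ∈ Finset.range (2 ^ m), sg (2 ^ m) j * (((2:ℝ) ^ N)⁻¹ *
        ∑ l ∈ Finset.range (2 ^ m), sg (2 ^ m) l *
        ∫ q : ℝ × ℝ, Φ (pt N (a * 2 ^ m + i) u, pt N (b * 2 ^ m + j) q.1, pt N (c * 2 ^ m + l) q.2)
          ∂(P.prod P)) ∂P =
      ((2:ℝ) ^ N)⁻¹ * ∑ j ∈ Finset.range (2 ^ m), sg (2 ^ m) j * (((2:ℝ) ^ N)⁻¹ *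
        ∑ l ∈ Finset.range (2 ^ m), sg (2 ^ m) l *
        ∫ p : ℝ × ℝ × ℝ, Φ (pt N (a * 2 ^ m + i) p.1, pt N (b * 2 ^ m + j) p.2.1,
            pt N (c * 2 ^ m + l) p.2.2) ∂Q) := by
    intro i
    have hpi := pt_meas N (a * 2 ^ m + i)
    have hb : ∀ j l : ℕ, Bdm (fun u : ℝ => ∫ q : ℝ × ℝ, Φ (pt N (a * 2 ^ m + i) u,
        pt N (b * 2 ^ m + j) q.1, pt N (c * 2 ^ m + l) q.2) ∂(P.prod P)) :=
      fun j l => (hBjl j l).comp hpi
    rw [integral_const_mul, integral_finsetSum _ (fun j _ => (Bdm.const_mul (Bdm.const_mul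
      (Bdm.sum _ (fun l _ => Bdm.const_mul (hb j l) _)) _) _).integrable P)]
    congr 1
    refine Finset.sum_congr rfl (fun j _ => ?_)
    rw [integral_const_mul]
    congr 1
    rw [integral_const_mul, integral_finsetSum _ (fun l _ => (Bdm.const_mul (hb j l) _).integrable P)]
    congr 1
    refine Finset.sum_congr rfl (fun l _ => ?_)
    rw [integral_const_mul]
    congr 1
    have hpj := pt_meas N (b * 2 ^ m + j)
    have hpl := pt_meas N (c * 2 ^ m + l)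
    have hint : Integrable (fun p : ℝ × ℝ × ℝ => Φ (pt N (a * 2 ^ m + i) p.1, pt N (b * 2 ^ m + j) p.2.1,
            pt N (c * 2 ^ m + l) p.2.2)) (P.prod (P.prod P)) :=
      (hB.comp (g := fun p : ℝ × ℝ × ℝ => (pt N (a * 2 ^ m + i) p.1, pt N (b * 2 ^ m + j) p.2.1,
            pt N (c * 2 ^ m + l) p.2.2)) (by fun_prop)).integrable _
    unfold Q
    exact (integral_prod _ hint).symm
  simp only [hfin]
  simp only [Finset.mul_sum]
  refine Finset.sum_congr rfl (fun i _ => Finset.sum_congr rfl (fun j _ =>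
    Finset.sum_congr rfl (fun l _ => ?_)))
  ring

end X_haar3

export X_haar3 (haar3)

end Pool.Agent.Helper519.TH
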