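import Pool.Agent.Helper519.TH.Defs
import Pool.Agent.Helper519.TH.M_haar3
import Pool.Agent.Helper519.TH.M_T_eq_sum

set_option autoImplicit false

open MeasureTheory Set

noncomputable section

namespace Pool.Agent.Helper519.TH

namespace X_T_eq_Lam

instance instPP : IsProbabilityMeasure P := ⟨by simp [P]⟩
instance instPQ : IsProbabilityMeasure Q := by unfold Q; infer_instance

theorem T_eq_Lam (N L s : ℕ) (k : ℤ) (hk : k + s = L) (hN : 1 ≤ N + k) (f g h : ℝ × ℝ → ℝ)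
    (hf : Measurable f) (hg : Measurable g) (hh : Measurable h) (M : ℝ)
    (bf : ∀ p, |f p| ≤ M) (bg : ∀ p, |g p| ≤ M) (bh : ∀ p, |h p| ≤ M)
    (sf : ∀ x y : ℝ, (2:ℝ) ^ L ≤ x ∨ (2:ℝ) ^ L ≤ y → f (x, y) = 0) :
    T k f g h = (4:ℝ) ^ L * ∫ p : ℝ × ℝ × ℝ, Lam (N + L) s
      (fun X Y => f (pt N X p.1, pt N Y p.2.1)) (fun Y Z => g (pt N Y p.2.1, pt N Z p.2.2))
      (fun Z X => h (pt N Z p.2.2, pt N X p.1)) ∂Q := by
  obtain ⟨m, hm⟩ : ∃ m : ℕ, m = N + L - s := ⟨_, rfl⟩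
  have hmk : (m:ℤ) = N + k := by omega
  have hm1 : 1 ≤ m := by omega
  have hM : 0 ≤ M := (abs_nonneg _).trans (bf (0, 0))
  set Φ : ℝ × ℝ × ℝ → ℝ := fun p => f (p.1, p.2.1) * g (p.2.1, p.2.2) * h (p.2.2, p.1) with hΦ
  have mΦ : Measurable Φ := by
    refine ((hf.comp (by fun_prop)).mul (hg.comp (by fun_prop))).mul (hh.comp (by fun_prop))
  have bΦ : ∀ p, |Φ p| ≤ M * M * M := by
    intro p
    rw [hΦ]
    simp only [abs_mul]
    exact mul_le_mul (mul_le_mul (bf _) (bg _) (abs_nonneg _) hM) (bh _) (abs_nonneg _)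
      (mul_nonneg hM hM)
  rw [T_eq_sum L s k hk f g h sf]
  have h1 : ∀ a b : ℕ, ∫ x : ℝ, ∫ y : ℝ, ∫ z : ℝ,
        f (x, y) * g (y, z) * h (z, x) * H k a x * H k b y * H k (a ^^^ b) z =
      (((2:ℝ) ^ N)⁻¹) ^ 3 * ∑ i ∈ Finset.range (2 ^ m), ∑ j ∈ Finset.range (2 ^ m),
        ∑ l ∈ Finset.range (2 ^ m), sg (2 ^ m) i * sg (2 ^ m) j * sg (2 ^ m) l *
          ∫ p : ℝ × ℝ × ℝ, Φ (pt N (a * 2 ^ m + i) p.1, pt N (b * 2 ^ m + j) p.2.1,
            pt N ((a ^^^ b) * 2 ^ m + l) p.2.2) ∂Q := by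
    intro a b
    exact haar3 N m k hm1 hmk a b (a ^^^ b) Φ mΦ _ bΦ
  simp only [h1]
  have hI : ∀ X Y Z : ℕ, Integrable (fun p : ℝ × ℝ × ℝ =>
      Φ (pt N X p.1, pt N Y p.2.1, pt N Z p.2.2)) Q := by
    intro X Y Z
    refine Integrable.of_bound (mΦ.comp ?_).aestronglyMeasurable (M * M * M)
      (Filter.Eventually.of_forall fun x => by simpa using bΦ _)
    unfold pt
    fun_prop
  have h2 : ∫ p : ℝ × ℝ × ℝ, Lam (N + L) s
      (fun X Y => f (pt N X p.1, pt N Y p.2.1)) (fun Y Z => g (pt N Y p.2.1, pt N Z p.2.2))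
      (fun Z X => h (pt N Z p.2.2, pt N X p.1)) ∂Q =
      ((4:ℝ) ^ s)⁻¹ * ((8:ℝ) ^ m)⁻¹ *
    ∑ p ∈ Finset.range (2 ^ s), ∑ q ∈ Finset.range (2 ^ s),
      ∑ i ∈ Finset.range (2 ^ m), ∑ j ∈ Finset.range (2 ^ m),
        ∑ l ∈ Finset.range (2 ^ m),
          sg (2 ^ m) i * sg (2 ^ m) j * sg (2 ^ m) l *
            ∫ t : ℝ × ℝ × ℝ, Φ (pt N (p * 2 ^ m + i) t.1, pt N (q * 2 ^ m + j) t.2.1,
              pt N ((p ^^^ q) * 2 ^ m + l) t.2.2) ∂Q := by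
    have e : ∀ p : ℝ × ℝ × ℝ, Lam (N + L) s
      (fun X Y => f (pt N X p.1, pt N Y p.2.1)) (fun Y Z => g (pt N Y p.2.1, pt N Z p.2.2))
      (fun Z X => h (pt N Z p.2.2, pt N X p.1)) = ((4:ℝ) ^ s)⁻¹ * ((8:ℝ) ^ m)⁻¹ *
    ∑ a ∈ Finset.range (2 ^ s), ∑ b ∈ Finset.range (2 ^ s),
      ∑ i ∈ Finset.range (2 ^ m), ∑ j ∈ Finset.range (2 ^ m),
        ∑ l ∈ Finset.range (2 ^ m),
          sg (2 ^ m) i * sg (2 ^ m) j * sg (2 ^ m) l *
            Φ (pt N (a * 2 ^ m + i) p.1, pt N (b * 2 ^ m + j) p.2.1,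
              pt N ((a ^^^ b) * 2 ^ m + l) p.2.2) := by
      intro p
      rw [hm]
      rfl
    simp only [e]
    have i1 : ∀ a b i j l : ℕ, Integrable (fun p : ℝ × ℝ × ℝ =>
        sg (2 ^ m) i * sg (2 ^ m) j * sg (2 ^ m) l *
            Φ (pt N (a * 2 ^ m + i) p.1, pt N (b * 2 ^ m + j) p.2.1,
              pt N ((a ^^^ b) * 2 ^ m + l) p.2.2)) Q := fun a b i j l => (hI _ _ _).const_mul _
    rw [integral_const_mul]
    congr 1
    rw [integral_finsetSum _ fun a _ => integrable_finsetSum _ fun b _ =>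
      integrable_finsetSum _ fun i _ => integrable_finsetSum _ fun j _ =>
      integrable_finsetSum _ fun l _ => i1 a b i j l]
    refine Finset.sum_congr rfl fun a _ => ?_
    rw [integral_finsetSum _ fun b _ =>
      integrable_finsetSum _ fun i _ => integrable_finsetSum _ fun j _ =>
      integrable_finsetSum _ fun l _ => i1 a b i j l]
    refine Finset.sum_congr rfl fun b _ => ?_
    rw [integral_finsetSum _ fun i _ => integrable_finsetSum _ fun j _ =>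
      integrable_finsetSum _ fun l _ => i1 a b i j l]
    refine Finset.sum_congr rfl fun i _ => ?_
    rw [integral_finsetSum _ fun j _ =>
      integrable_finsetSum _ fun l _ => i1 a b i j l]
    refine Finset.sum_congr rfl fun j _ => ?_
    rw [integral_finsetSum _ fun l _ => i1 a b i j l]
    refine Finset.sum_congr rfl fun l _ => ?_
    rw [integral_const_mul]
  rw [h2]
  simp only [← Finset.mul_sum]
  rw [← mul_assoc, ← mul_assoc]
  congr 1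
  have e2 : (2:ℝ) ^ (-k) = (2:ℝ) ^ (N:ℤ) / (2:ℝ) ^ (m:ℤ) := by
    rw [← zpow_sub₀ (by norm_num)]
    congr 1
    omega
  have e3 : (2:ℝ) ^ L * 2 ^ N = 2 ^ m * 2 ^ s := by
    rw [← pow_add, ← pow_add]
    congr 1
    omega
  rw [e2, zpow_natCast, zpow_natCast]
  have e4 : (4:ℝ) ^ L = (2 ^ L) ^ 2 := by rw [← pow_mul, mul_comm, pow_mul]; norm_num
  have e5 : (4:ℝ) ^ s = (2 ^ s) ^ 2 := by rw [← pow_mul, mul_comm, pow_mul]; norm_num
  have e6 : (8:ℝ) ^ m = (2 ^ m) ^ 3 := by rw [← pow_mul, mul_comm, pow_mul]; norm_num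
  rw [e4, e5, e6]
  have p1 : (2:ℝ) ^ m ≠ 0 := by positivity
  have p2 : (2:ℝ) ^ s ≠ 0 := by positivity
  have p3 : (2:ℝ) ^ N ≠ 0 := by positivity
  have p4 : (2:ℝ) ^ L = 2 ^ m * 2 ^ s / 2 ^ N := by rw [← e3]; field_simp
  rw [p4]
  field_simp

end X_T_eq_Lam

export X_T_eq_Lam (T_eq_Lam)

end Pool.Agent.Helper519.TH
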