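import Pool.Agent.Helper519.TH.Defs

set_option autoImplicit false

open MeasureTheory Set

noncomputable section

namespace Pool.Agent.Helper519.TH

namespace X_T_smul

-- TARGET: prove this (auxiliary lemmas between the ASSUMED END line and the theorem)

theorem T_smul (k : ℤ) (a b c : ℝ) (f g h : ℝ × ℝ → ℝ) :
    T k (fun p => a * f p) (fun p => b * g p) (fun p => c * h p) = a * b * c * T k f g h := by
  unfold T
  have key : ∀ ab : ℕ × ℕ, (∫ x : ℝ, ∫ y : ℝ, ∫ z : ℝ,
      (a * f (x, y)) * (b * g (y, z)) * (c * h (z, x)) * H k ab.1 x * H k ab.2 y * H k (ab.1 ^^^ ab.2) z)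
      = (a * b * c) * ∫ x : ℝ, ∫ y : ℝ, ∫ z : ℝ,
      f (x, y) * g (y, z) * h (z, x) * H k ab.1 x * H k ab.2 y * H k (ab.1 ^^^ ab.2) z := by
    intro ab
    rw [← integral_const_mul]
    congr 1; ext x
    rw [← integral_const_mul]
    congr 1; ext y
    rw [← integral_const_mul]
    congr 1; ext z
    ring
  simp only [key]
  rw [tsum_mul_left]
  ring

end X_T_smul

export X_T_smul (T_smul)

end Pool.Agent.Helper519.TH
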