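import Pool.Agent.Helper519.TH.Defs
import Pool.Agent.Helper519.TH.M_cell1

set_option autoImplicit false

open MeasureTheory Set

noncomputable section

namespace Pool.Agent.Helper519.TH

namespace X_cube_norm

-- TARGET: prove this (auxiliary lemmas between the ASSUMED END line and the theorem)

theorem cube_norm (N L : ℕ) (f : ℝ × ℝ → ℝ) (hf : Measurable f) (M : ℝ) (bf : ∀ p, |f p| ≤ M) :
    (4:ℝ) ^ L * ∫ u, ∫ v, a3 (N + L) (fun X Y => f (pt N X u, pt N Y v)) ∂P ∂P =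
      ∫ x in Ico (0:ℝ) (2 ^ L), ∫ y in Ico (0:ℝ) (2 ^ L), |f (x, y)| ^ 3 := by
  have hPf : IsFiniteMeasure P := by unfold P; infer_instance
  have hM : 0 ≤ M := (abs_nonneg _).trans (bf (0, 0))
  have hpt : ∀ i : ℕ, Measurable (pt N i) := by
    intro i; unfold pt; fun_prop
  have hb3 : ∀ p, |(|f p| ^ 3)| ≤ M ^ 3 := by
    intro p
    rw [abs_of_nonneg (by positivity)]
    exact pow_le_pow_left₀ (abs_nonneg _) (bf p) 3
  have hm3 : Measurable (fun p : ℝ × ℝ => |f p| ^ 3) := by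
    have h1 : Measurable (fun p : ℝ × ℝ => |f p|) := by
      simpa [Real.norm_eq_abs] using hf.norm
    exact h1.pow_const 3
  -- the interval
  have hI : Ico (0:ℝ) (2 ^ L) = Ico (((0:ℕ):ℝ) / 2 ^ N) (((0 + 2 ^ (N + L) : ℕ):ℝ) / 2 ^ N) := by
    congr 1
    · simp
    · push_cast
      rw [zero_add, pow_add]
      field_simp
  -- inner integral
  have hinner : ∀ x : ℝ, ∫ y in Ico (0:ℝ) (2 ^ L), |f (x, y)| ^ 3 =
      ((2:ℝ) ^ N)⁻¹ * ∑ j ∈ Finset.range (2 ^ (N + L)), ∫ v, |f (x, pt N j v)| ^ 3 ∂P := by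
    intro x
    rw [hI, cell1 N 0 (2 ^ (N + L)) (fun y => |f (x, y)| ^ 3)
      (hm3.comp (measurable_const.prodMk measurable_id)) (M ^ 3) (fun y => hb3 (x, y))]
    simp only [zero_add]
  have hGm : Measurable (fun x : ℝ => ∫ y in Ico (0:ℝ) (2 ^ L), |f (x, y)| ^ 3) := by
    have h1 : StronglyMeasurable (Function.uncurry (fun x y : ℝ => |f (x, y)| ^ 3)) :=
      hm3.stronglyMeasurable
    exact (StronglyMeasurable.integral_prod_right (ν := volume.restrict (Ico (0:ℝ) (2 ^ L))) h1).measurable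
  have hGb : ∀ x : ℝ, |∫ y in Ico (0:ℝ) (2 ^ L), |f (x, y)| ^ 3| ≤
      M ^ 3 * (volume.restrict (Ico (0:ℝ) (2 ^ L))).real univ := by
    intro x
    have := norm_integral_le_of_norm_le_const (μ := volume.restrict (Ico (0:ℝ) (2 ^ L)))
      (f := fun y => |f (x, y)| ^ 3) (C := M ^ 3) (Filter.Eventually.of_forall (fun y => hb3 (x, y)))
    exact this
  have hR : ∫ x in Ico (0:ℝ) (2 ^ L), ∫ y in Ico (0:ℝ) (2 ^ L), |f (x, y)| ^ 3 =
      ((2:ℝ) ^ N)⁻¹ * ∑ i ∈ Finset.range (2 ^ (N + L)),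
        ∫ u, (∫ y in Ico (0:ℝ) (2 ^ L), |f (pt N i u, y)| ^ 3) ∂P := by
    have h2 := cell1 N 0 (2 ^ (N + L)) (fun x : ℝ => ∫ y in Ico (0:ℝ) (2 ^ L), |f (x, y)| ^ 3) hGm _ hGb
    rw [← hI] at h2
    simp only [zero_add] at h2
    exact h2
  -- integrability
  have hint1 : ∀ (i j : ℕ) (u : ℝ), Integrable (fun v => |f (pt N i u, pt N j v)| ^ 3) P := by
    intro i j u
    refine Integrable.of_bound ((hm3.comp (measurable_const.prodMk (hpt j))).aestronglyMeasurable)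
      (M ^ 3) (Filter.Eventually.of_forall (fun v => hb3 _))
  have hint2 : ∀ (i j : ℕ), Integrable (fun u => ∫ v, |f (pt N i u, pt N j v)| ^ 3 ∂P) P := by
    intro i j
    have h1 : Measurable (fun p : ℝ × ℝ => |f (pt N i p.1, pt N j p.2)| ^ 3) :=
      hm3.comp (((hpt i).comp measurable_fst).prodMk ((hpt j).comp measurable_snd))
    have h2 : StronglyMeasurable (Function.uncurry (fun u v : ℝ => |f (pt N i u, pt N j v)| ^ 3)) :=
      h1.stronglyMeasurable
    have h3 := StronglyMeasurable.integral_prod_right (ν := P) h2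
    refine Integrable.of_bound h3.aestronglyMeasurable (M ^ 3 * P.real univ)
      (Filter.Eventually.of_forall (fun u => ?_))
    exact norm_integral_le_of_norm_le_const (Filter.Eventually.of_forall (fun v => hb3 _))
  -- right side
  have hR2 : ∫ x in Ico (0:ℝ) (2 ^ L), ∫ y in Ico (0:ℝ) (2 ^ L), |f (x, y)| ^ 3 =
      ((2:ℝ) ^ N)⁻¹ * (((2:ℝ) ^ N)⁻¹ * ∑ i ∈ Finset.range (2 ^ (N + L)),
        ∑ j ∈ Finset.range (2 ^ (N + L)), ∫ u, ∫ v, |f (pt N i u, pt N j v)| ^ 3 ∂P ∂P) := by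
    rw [hR]
    congr 1
    rw [Finset.mul_sum]
    apply Finset.sum_congr rfl
    intro i _
    simp only [hinner]
    rw [integral_const_mul, integral_finset_sum _ (fun j _ => hint2 i j)]
  have hL2 : ∫ u, ∫ v, a3 (N + L) (fun X Y => f (pt N X u, pt N Y v)) ∂P ∂P =
      ((4:ℝ) ^ (N + L))⁻¹ * ∑ i ∈ Finset.range (2 ^ (N + L)),
        ∑ j ∈ Finset.range (2 ^ (N + L)), ∫ u, ∫ v, |f (pt N i u, pt N j v)| ^ 3 ∂P ∂P := by
    unfold a3
    have h1 : ∀ u, ∫ v, ((4:ℝ) ^ (N + L))⁻¹ * ∑ i ∈ Finset.range (2 ^ (N + L)),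
        ∑ j ∈ Finset.range (2 ^ (N + L)), |f (pt N i u, pt N j v)| ^ 3 ∂P =
        ((4:ℝ) ^ (N + L))⁻¹ * ∑ i ∈ Finset.range (2 ^ (N + L)),
        ∑ j ∈ Finset.range (2 ^ (N + L)), ∫ v, |f (pt N i u, pt N j v)| ^ 3 ∂P := by
      intro u
      rw [integral_const_mul, integral_finset_sum _ (fun i _ =>
        integrable_finset_sum _ (fun j _ => hint1 i j u))]
      congr 1
      apply Finset.sum_congr rfl
      intro i _
      rw [integral_finset_sum _ (fun j _ => hint1 i j u)]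
    simp only [h1]
    rw [integral_const_mul, integral_finset_sum _ (fun i _ =>
        integrable_finset_sum _ (fun j _ => hint2 i j))]
    congr 1
    apply Finset.sum_congr rfl
    intro i _
    rw [integral_finset_sum _ (fun j _ => hint2 i j)]
  rw [hL2, hR2, ← mul_assoc, ← mul_assoc]
  congr 1
  have h4 : (4:ℝ) = 2 ^ 2 := by norm_num
  rw [pow_add, h4, ← pow_mul, ← pow_mul]
  have e1 : (2:ℝ) ^ (2 * N) = 2 ^ N * 2 ^ N := by rw [← pow_add]; congr 1; ring
  rw [e1]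
  field_simp

end X_cube_norm

export X_cube_norm (cube_norm)

end Pool.Agent.Helper519.TH
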