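import Pool.Agent.Helper519.TH.Defs

set_option autoImplicit false

open MeasureTheory Set

noncomputable section

namespace Pool.Agent.Helper519.TH

namespace X_marg

instance : IsProbabilityMeasure P := ⟨by simp [P]⟩

theorem marg (E : ℝ × ℝ → ℝ) (hE : Measurable E) (K : ℝ) (hK : ∀ p, |E p| ≤ K) :
    (∫ p : ℝ × ℝ × ℝ, E (p.1, p.2.1) ∂Q = ∫ u, ∫ v, E (u, v) ∂P ∂P) ∧
    (∫ p : ℝ × ℝ × ℝ, E (p.2.1, p.2.2) ∂Q = ∫ u, ∫ v, E (u, v) ∂P ∂P) ∧
    (∫ p : ℝ × ℝ × ℝ, E (p.2.2, p.1) ∂Q = ∫ u, ∫ v, E (u, v) ∂P ∂P) := by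
  have hint : ∀ {α : Type} [MeasurableSpace α] (μ : Measure α) [IsFiniteMeasure μ] (g : α → ℝ × ℝ)
      (hg : Measurable g), Integrable (fun x => E (g x)) μ := by
    intro α _ μ _ g hg
    exact Integrable.of_bound (hE.comp hg).aestronglyMeasurable K
      (Filter.Eventually.of_forall fun x => by simpa using hK (g x))
  refine ⟨?_, ?_, ?_⟩
  · unfold Q
    rw [integral_prod _ (hint _ _ (by fun_prop))]
    refine integral_congr_ae (Filter.Eventually.of_forall fun u => ?_)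
    show ∫ y : ℝ × ℝ, E (u, y.1) ∂(P.prod P) = _
    rw [integral_prod _ (hint _ _ (by fun_prop))]
    refine integral_congr_ae (Filter.Eventually.of_forall fun v => ?_)
    simp
  · unfold Q
    rw [integral_prod _ (hint _ _ (by fun_prop))]
    show ∫ _ : ℝ, (∫ y : ℝ × ℝ, E (y.1, y.2) ∂(P.prod P)) ∂P = _
    rw [integral_const, integral_prod _ (hint _ _ (by fun_prop))]
    simp
  · unfold Q
    rw [integral_prod _ (hint _ _ (by fun_prop))]
    have h1 : ∀ u : ℝ, ∫ y : ℝ × ℝ, E (y.2, u) ∂(P.prod P) = ∫ w, E (w, u) ∂P := by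
      intro u
      rw [integral_prod _ (hint _ _ (by fun_prop))]
      simp
    show ∫ u : ℝ, (∫ y : ℝ × ℝ, E (y.2, u) ∂(P.prod P)) ∂P = _
    simp only [h1]
    rw [integral_integral_swap (f := fun u w => E (w, u))]
    exact hint _ _ (by fun_prop)

end X_marg

export X_marg (marg)

end Pool.Agent.Helper519.TH
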