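import Pool.Agent.Helper519.TH.Defs

set_option autoImplicit false

open MeasureTheory Set

noncomputable section

namespace Pool.Agent.Helper519.TH

namespace X_norm_le

-- TARGET: prove this (auxiliary lemmas between the ASSUMED END line and the theorem)

theorem norm_le (L : ℕ) (f : ℝ × ℝ → ℝ) (hf : Nice f) :
    ∫ x in Ico (0:ℝ) (2 ^ L), ∫ y in Ico (0:ℝ) (2 ^ L), |f (x, y)| ^ 3 ≤
      (eLpNorm f 3 volume).toReal ^ 3 := by
  obtain ⟨hm, hc, M, hM⟩ := hf
  have hint : Integrable (fun p : ℝ × ℝ => |f p| ^ 3) volume := by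
    have h1 : IntegrableOn (fun p : ℝ × ℝ => |f p| ^ 3) (tsupport f) volume := by
      refine Measure.integrableOn_of_bounded (M := M ^ 3) ?_ ?_ ?_
      · exact (hc.isCompact.measure_lt_top).ne
      · exact ((continuous_abs.measurable.comp hm).pow_const 3).aestronglyMeasurable
      · refine Filter.Eventually.of_forall fun p => ?_
        rw [Real.norm_eq_abs, abs_pow, abs_abs]
        exact pow_le_pow_left₀ (abs_nonneg _) (hM p) 3
    refine (integrableOn_iff_integrable_of_support_subset ?_).1 h1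
    intro p hp
    apply subset_tsupport
    intro h
    apply hp
    simp [h]
  have h3 : (3 : ENNReal).toReal = 3 := by norm_num
  have hmem : MemLp f 3 volume := by
    rw [← integrable_norm_rpow_iff hm.aestronglyMeasurable (by norm_num) (by norm_num), h3]
    refine hint.congr (Filter.Eventually.of_forall fun p => ?_)
    simp only [Real.norm_eq_abs]
    rw [← Real.rpow_natCast]
    norm_num
  have hI : ∫ p : ℝ × ℝ, ‖f p‖ ^ (3 : ENNReal).toReal = ∫ p : ℝ × ℝ, |f p| ^ 3 := by
    refine integral_congr_ae (Filter.Eventually.of_forall fun p => ?_)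
    simp only [Real.norm_eq_abs]
    rw [h3, ← Real.rpow_natCast]
    norm_num
  have hnn : 0 ≤ ∫ p : ℝ × ℝ, |f p| ^ 3 := integral_nonneg fun p => by positivity
  have hE : (eLpNorm f 3 volume).toReal ^ 3 = ∫ p : ℝ × ℝ, |f p| ^ 3 := by
    rw [MemLp.eLpNorm_eq_integral_rpow_norm (by norm_num) (by norm_num) hmem, hI,
      ENNReal.toReal_ofReal (by positivity), h3, ← Real.rpow_natCast, ← Real.rpow_mul hnn]
    norm_num
  rw [hE]
  have hs : ∫ x in Ico (0:ℝ) (2 ^ L), ∫ y in Ico (0:ℝ) (2 ^ L), |f (x, y)| ^ 3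
      = ∫ p in Ico (0:ℝ) (2 ^ L) ×ˢ Ico (0:ℝ) (2 ^ L), |f p| ^ 3 := by
    rw [Measure.volume_eq_prod]
    exact (setIntegral_prod (fun p : ℝ × ℝ => |f p| ^ 3) (by
      rw [← Measure.volume_eq_prod]; exact hint.integrableOn)).symm
  rw [hs]
  exact setIntegral_le_integral hint (Filter.Eventually.of_forall fun p => by positivity)

end X_norm_le

export X_norm_le (norm_le)

end Pool.Agent.Helper519.TH
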