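import Pool.Agent.Helper519.TH.Defs
import Pool.Agent.Helper519.TH.M_cube_norm
import Pool.Agent.Helper519.TH.M_marg
import Pool.Agent.Helper519.TH.M_norm_le

set_option autoImplicit false

open MeasureTheory Set

noncomputable section

namespace Pool.Agent.Helper519.TH

namespace X_a3_le

-- TARGET: prove this (auxiliary lemmas between the ASSUMED END line and the theorem)

theorem h21_meas_a3 (N n : ℕ) (f : ℝ × ℝ → ℝ) (hf : Measurable f) :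
    Measurable (fun p : ℝ × ℝ => a3 n (fun X Y => f (pt N X p.1, pt N Y p.2))) := by
  unfold a3
  apply Measurable.const_mul
  apply Finset.measurable_fun_sum
  intro i _
  apply Finset.measurable_fun_sum
  intro j _
  have h1 : Measurable (fun p : ℝ × ℝ => (pt N i p.1, pt N j p.2)) := by
    unfold pt
    fun_prop
  have h2 : Measurable (fun p : ℝ × ℝ => f (pt N i p.1, pt N j p.2)) := hf.comp h1
  have h3 : Measurable (fun p : ℝ × ℝ => |f (pt N i p.1, pt N j p.2)|) := h2.abs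
  exact h3.pow_const 3

theorem h21_bd_a3 (N n : ℕ) (f : ℝ × ℝ → ℝ) (M : ℝ) (bf : ∀ p, |f p| ≤ M) (p : ℝ × ℝ) :
    |a3 n (fun X Y => f (pt N X p.1, pt N Y p.2))| ≤
      ((4:ℝ) ^ n)⁻¹ * ∑ _i ∈ Finset.range (2 ^ n), ∑ _j ∈ Finset.range (2 ^ n), M ^ 3 := by
  unfold a3
  have h0 : 0 ≤ ((4:ℝ) ^ n)⁻¹ := by positivity
  rw [abs_of_nonneg]
  · apply mul_le_mul_of_nonneg_left _ h0
    apply Finset.sum_le_sum
    intro i _
    apply Finset.sum_le_sum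
    intro j _
    exact pow_le_pow_left₀ (abs_nonneg _) (bf _) 3
  · apply mul_nonneg h0
    apply Finset.sum_nonneg
    intro i _
    apply Finset.sum_nonneg
    intro j _
    positivity

theorem a3_le (N L : ℕ) (f : ℝ × ℝ → ℝ) (hf : Nice f) :
    ((4:ℝ) ^ L * ∫ p : ℝ × ℝ × ℝ, a3 (N + L) (fun X Y => f (pt N X p.1, pt N Y p.2.1)) ∂Q ≤
      (eLpNorm f 3 volume).toReal ^ 3) ∧
    ((4:ℝ) ^ L * ∫ p : ℝ × ℝ × ℝ, a3 (N + L) (fun X Y => f (pt N X p.2.1, pt N Y p.2.2)) ∂Q ≤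
      (eLpNorm f 3 volume).toReal ^ 3) ∧
    ((4:ℝ) ^ L * ∫ p : ℝ × ℝ × ℝ, a3 (N + L) (fun X Y => f (pt N X p.2.2, pt N Y p.1)) ∂Q ≤
      (eLpNorm f 3 volume).toReal ^ 3) := by
  obtain ⟨hm, -, M, bf⟩ := id hf
  have hE := h21_meas_a3 N (N + L) f hm
  have hb := h21_bd_a3 N (N + L) f M bf
  obtain ⟨m1, m2, m3⟩ := marg (fun p : ℝ × ℝ => a3 (N + L) (fun X Y => f (pt N X p.1, pt N Y p.2)))
    hE _ hb
  have hc := cube_norm N L f hm M bf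
  have hn := norm_le L f hf
  refine ⟨?_, ?_, ?_⟩
  · calc (4:ℝ) ^ L * ∫ p : ℝ × ℝ × ℝ, a3 (N + L) (fun X Y => f (pt N X p.1, pt N Y p.2.1)) ∂Q
        = (4:ℝ) ^ L * ∫ u, ∫ v, a3 (N + L) (fun X Y => f (pt N X u, pt N Y v)) ∂P ∂P :=
          congrArg (fun t => (4:ℝ) ^ L * t) m1
      _ ≤ _ := by rw [hc]; exact hn
  · calc (4:ℝ) ^ L * ∫ p : ℝ × ℝ × ℝ, a3 (N + L) (fun X Y => f (pt N X p.2.1, pt N Y p.2.2)) ∂Q
        = (4:ℝ) ^ L * ∫ u, ∫ v, a3 (N + L) (fun X Y => f (pt N X u, pt N Y v)) ∂P ∂P :=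
          congrArg (fun t => (4:ℝ) ^ L * t) m2
      _ ≤ _ := by rw [hc]; exact hn
  · calc (4:ℝ) ^ L * ∫ p : ℝ × ℝ × ℝ, a3 (N + L) (fun X Y => f (pt N X p.2.2, pt N Y p.1)) ∂Q
        = (4:ℝ) ^ L * ∫ u, ∫ v, a3 (N + L) (fun X Y => f (pt N X u, pt N Y v)) ∂P ∂P :=
          congrArg (fun t => (4:ℝ) ^ L * t) m3
      _ ≤ _ := by rw [hc]; exact hn

end X_a3_le

export X_a3_le (a3_le)

end Pool.Agent.Helper519.TH
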