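import Pool.Agent.Helper519.TH.Defs

set_option autoImplicit false

open MeasureTheory Set

noncomputable section

namespace Pool.Agent.Helper519.TH

namespace X_homog

-- TARGET: prove this (auxiliary lemmas between the ASSUMED END line and the theorem)

theorem homog (τ A B D C : ℝ) (hA : 0 ≤ A) (hB : 0 ≤ B) (hD : 0 ≤ D)
    (h : ∀ a b c : ℝ, 0 < a → 0 < b → 0 < c →
      a * b * c * τ ≤ C * ((a * A) ^ 3 + (b * B) ^ 3 + (c * D) ^ 3)) :
    τ ≤ 3 * |C| * A * B * D := by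
  have key : ∀ e : ℝ, 0 < e → τ ≤ 3 * |C| * (A + e) * (B + e) * (D + e) := by
    intro e he
    have h1 : 0 < A + e := by linarith
    have h2 : 0 < B + e := by linarith
    have h3 : 0 < D + e := by linarith
    have h4 := h (A + e)⁻¹ (B + e)⁻¹ (D + e)⁻¹ (inv_pos.2 h1) (inv_pos.2 h2) (inv_pos.2 h3)
    have hle : ∀ X : ℝ, 0 ≤ X → ((X + e)⁻¹ * X) ^ 3 ≤ 1 ∧ 0 ≤ ((X + e)⁻¹ * X) ^ 3 := by
      intro X hX
      have hp : 0 < X + e := by linarith
      have h5 : (X + e)⁻¹ * X ≤ 1 := by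
        rw [inv_mul_le_iff₀ hp]
        linarith
      have h6 : 0 ≤ (X + e)⁻¹ * X := mul_nonneg (inv_pos.2 hp).le hX
      exact ⟨pow_le_one₀ h6 h5, pow_nonneg h6 3⟩
    obtain ⟨a1, a2⟩ := hle A hA
    obtain ⟨b1, b2⟩ := hle B hB
    obtain ⟨d1, d2⟩ := hle D hD
    have h7 : C * (((A + e)⁻¹ * A) ^ 3 + ((B + e)⁻¹ * B) ^ 3 + ((D + e)⁻¹ * D) ^ 3) ≤
        |C| * 3 := by
      refine (mul_le_mul_of_nonneg_right (le_abs_self C) (by linarith)).trans ?_
      exact mul_le_mul_of_nonneg_left (by linarith) (abs_nonneg C)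
    have h8 : (A + e)⁻¹ * (B + e)⁻¹ * (D + e)⁻¹ * τ ≤ |C| * 3 := h4.trans h7
    have h9 : 0 < (A + e) * (B + e) * (D + e) := by positivity
    have h10 := mul_le_mul_of_nonneg_left h8 h9.le
    have h11 : (A + e) * (B + e) * (D + e) * ((A + e)⁻¹ * (B + e)⁻¹ * (D + e)⁻¹ * τ) = τ := by
      field_simp
    rw [h11] at h10
    linarith
  have hc : Filter.Tendsto (fun e : ℝ => 3 * |C| * (A + e) * (B + e) * (D + e))
      (nhdsWithin 0 (Set.Ioi 0)) (nhds (3 * |C| * (A + 0) * (B + 0) * (D + 0))) := by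
    have : Continuous (fun e : ℝ => 3 * |C| * (A + e) * (B + e) * (D + e)) := by fun_prop
    exact (this.tendsto 0).mono_left nhdsWithin_le_nhds
  have hf := ge_of_tendsto hc (by
    filter_upwards [self_mem_nhdsWithin] with e he
    exact key e he)
  simpa using hf

end X_homog

export X_homog (homog)

end Pool.Agent.Helper519.TH
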