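import Pool.Agent.Helper519.TH.Defs

set_option autoImplicit false

open MeasureTheory Set

noncomputable section

namespace Pool.Agent.Helper519.TH

namespace X_nice_supp

-- TARGET: prove this (auxiliary lemmas between the ASSUMED END line and the theorem)

theorem nice_supp (f : ℝ × ℝ → ℝ) (hf : Nice f) :
    ∃ L₀ : ℕ, ∀ L : ℕ, L₀ ≤ L → ∀ x y : ℝ, (2:ℝ) ^ L ≤ x ∨ (2:ℝ) ^ L ≤ y → f (x, y) = 0 := by
  have hc : IsCompact (tsupport f) := hf.2.1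
  obtain ⟨R, hR⟩ := hc.isBounded.exists_norm_le
  refine ⟨⌈R⌉₊ + 1, ?_⟩
  intro L hL x y hxy
  have h1 : R < (2:ℝ) ^ L := by
    have a1 : R ≤ (⌈R⌉₊ : ℝ) := Nat.le_ceil R
    have a2 : ((⌈R⌉₊ + 1 : ℕ) : ℝ) ≤ (L : ℝ) := by exact_mod_cast hL
    have a3 : (L : ℝ) < (2:ℝ) ^ L := by exact_mod_cast Nat.lt_two_pow_self
    push_cast at a2
    linarith
  apply image_eq_zero_of_notMem_tsupport
  intro hmem
  have h2 := hR _ hmem
  have h3 : ‖x‖ ≤ ‖((x, y) : ℝ × ℝ)‖ := norm_fst_le (x, y)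
  have h4 : ‖y‖ ≤ ‖((x, y) : ℝ × ℝ)‖ := norm_snd_le (x, y)
  have h5 : x ≤ ‖x‖ := le_abs_self x
  have h6 : y ≤ ‖y‖ := le_abs_self y
  rcases hxy with h | h <;> linarith

end X_nice_supp

export X_nice_supp (nice_supp)

end Pool.Agent.Helper519.TH
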