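import Pool.Agent.Helper519.TH.Defs
import Pool.Agent.Helper519.TH.M_T_eq_Lam
import Pool.Agent.Helper519.TH.M_a3_le
import Pool.Agent.Helper519.TH.M_nice_supp
import Pool.Agent.Helper519.TH.M_Lam_int

set_option autoImplicit false

open MeasureTheory Set

noncomputable section

namespace Pool.Agent.Helper519.TH

namespace X_sum_bound

-- TARGET: prove this (auxiliary lemmas between the ASSUMED END line and the theorem)

theorem a3_nonneg (n : ℕ) (F : ℕ → ℕ → ℝ) : 0 ≤ a3 n F := by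
  unfold a3
  positivity

theorem sum_bound (hFS : FSflat) : ∃ C : ℝ, ∀ (S : Finset ℤ) (f g h : ℝ × ℝ → ℝ),
    Nice f → Nice g → Nice h →
      ∑ k ∈ S, |T k f g h| ≤ C * ((eLpNorm f 3 volume).toReal ^ 3 +
        (eLpNorm g 3 volume).toReal ^ 3 + (eLpNorm h 3 volume).toReal ^ 3) := by
  obtain ⟨C0, hC0⟩ := hFS
  refine ⟨|C0|, fun S f g h hf hg hh => ?_⟩
  obtain ⟨L₀, hL₀⟩ := nice_supp f hf
  obtain ⟨Mf, hMf⟩ := hf.2.2
  obtain ⟨Mg, hMg⟩ := hg.2.2
  obtain ⟨Mh, hMh⟩ := hh.2.2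
  set M : ℝ := max Mf (max Mg Mh) with hM
  have bf : ∀ p, |f p| ≤ M := fun p => (hMf p).trans (le_max_left _ _)
  have bg : ∀ p, |g p| ≤ M := fun p =>
    (hMg p).trans ((le_max_left _ _).trans (le_max_right _ _))
  have bh : ∀ p, |h p| ≤ M := fun p =>
    (hMh p).trans ((le_max_right _ _).trans (le_max_right _ _))
  set A : ℕ := ∑ k ∈ S, k.natAbs with hA
  have hkA : ∀ k ∈ S, k.natAbs ≤ A := fun k hk =>
    Finset.single_le_sum (f := fun k : ℤ => k.natAbs) (fun _ _ => Nat.zero_le _) hk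
  set L : ℕ := L₀ + A with hL
  set N : ℕ := 1 + A with hN
  have sf := hL₀ L (Nat.le_add_right _ _)
  set s : ℤ → ℕ := fun k => ((L : ℤ) - k).toNat with hs
  have hs1 : ∀ k ∈ S, k + (s k : ℤ) = (L : ℤ) := by
    intro k hk
    have h1 := hkA k hk
    have h2 : ((s k : ℕ) : ℤ) = (L : ℤ) - k := by
      simp only [hs]
      apply Int.toNat_of_nonneg
      omega
    omega
  have hs2 : ∀ k ∈ S, s k < N + L := by
    intro k hk
    have h1 := hkA k hk
    have h2 := hs1 k hk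
    omega
  have hs3 : ∀ k ∈ S, (1 : ℤ) ≤ (N : ℤ) + k := by
    intro k hk
    have h1 := hkA k hk
    omega
  set Lm : ℕ → ℝ × ℝ × ℝ → ℝ := fun s p => Lam (N + L) s
      (fun X Y => f (pt N X p.1, pt N Y p.2.1)) (fun Y Z => g (pt N Y p.2.1, pt N Z p.2.2))
      (fun Z X => h (pt N Z p.2.2, pt N X p.1)) with hLm
  set af : ℝ × ℝ × ℝ → ℝ := fun p => a3 (N + L) (fun X Y => f (pt N X p.1, pt N Y p.2.1)) with haf
  set ag : ℝ × ℝ × ℝ → ℝ := fun p => a3 (N + L) (fun X Y => g (pt N X p.2.1, pt N Y p.2.2)) with hag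
  set ah : ℝ × ℝ × ℝ → ℝ := fun p => a3 (N + L) (fun X Y => h (pt N X p.2.2, pt N Y p.1)) with hah
  have hLint : ∀ s, Integrable (Lm s) Q := fun s => (Lam_int N (N + L) s f g h hf hg hh).1
  have hLabs : ∀ s, Integrable (fun p => |Lm s p|) Q := fun s => (hLint s).abs
  have hafi : Integrable af Q := (Lam_int N (N + L) 0 f g h hf hg hh).2.1
  have hagi : Integrable ag Q := (Lam_int N (N + L) 0 f g h hf hg hh).2.2.1
  have hahi : Integrable ah Q := (Lam_int N (N + L) 0 f g h hf hg hh).2.2.2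
  have e1 : ∀ k ∈ S, |T k f g h| ≤ (4:ℝ) ^ L * ∫ p, |Lm (s k) p| ∂Q := by
    intro k hk
    have h1 : T k f g h = (4:ℝ) ^ L * ∫ p, Lm (s k) p ∂Q :=
      T_eq_Lam N L (s k) k (hs1 k hk) (hs3 k hk) f g h hf.1 hg.1 hh.1 M bf bg bh sf
    rw [h1, abs_mul, abs_of_pos (by positivity : (0:ℝ) < 4 ^ L)]
    refine mul_le_mul_of_nonneg_left ?_ (by positivity)
    have := norm_integral_le_integral_norm (μ := Q) (Lm (s k))
    simpa [Real.norm_eq_abs] using this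
  have e2 : ∑ k ∈ S, |T k f g h| ≤ (4:ℝ) ^ L * ∫ p, ∑ k ∈ S, |Lm (s k) p| ∂Q := by
    rw [integral_finsetSum S (fun k _ => hLabs (s k)), Finset.mul_sum]
    exact Finset.sum_le_sum e1
  have hinj : Set.InjOn s (S : Set ℤ) := by
    intro k hk k' hk' hkk
    have h1 := hs1 k hk
    have h2 := hs1 k' hk'
    rw [hkk] at h1
    omega
  have e3 : ∀ p, ∑ k ∈ S, |Lm (s k) p| ≤ |C0| * (af p + ag p + ah p) := by
    intro p
    have h1 : ∑ k ∈ S, |Lm (s k) p| = ∑ t ∈ S.image s, |Lm t p| :=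
      (Finset.sum_image (f := fun t => |Lm t p|) hinj).symm
    have h2 : S.image s ⊆ Finset.range (N + L) := by
      intro t ht
      obtain ⟨k, hk, rfl⟩ := Finset.mem_image.1 ht
      exact Finset.mem_range.2 (hs2 k hk)
    have h3 : ∑ t ∈ S.image s, |Lm t p| ≤ ∑ t ∈ Finset.range (N + L), |Lm t p| :=
      Finset.sum_le_sum_of_subset_of_nonneg h2 (fun _ _ _ => abs_nonneg _)
    have h4 : ∑ t ∈ Finset.range (N + L), |Lm t p| ≤ C0 * (af p + ag p + ah p) :=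
      hC0 (N + L) (fun X Y => f (pt N X p.1, pt N Y p.2.1))
        (fun Y Z => g (pt N Y p.2.1, pt N Z p.2.2)) (fun Z X => h (pt N Z p.2.2, pt N X p.1))
    have h5 : 0 ≤ af p + ag p + ah p := by
      have := a3_nonneg (N + L) (fun X Y => f (pt N X p.1, pt N Y p.2.1))
      have := a3_nonneg (N + L) (fun X Y => g (pt N X p.2.1, pt N Y p.2.2))
      have := a3_nonneg (N + L) (fun X Y => h (pt N X p.2.2, pt N Y p.1))
      simp only [haf, hag, hah]
      linarith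
    have h6 : C0 * (af p + ag p + ah p) ≤ |C0| * (af p + ag p + ah p) :=
      mul_le_mul_of_nonneg_right (le_abs_self _) h5
    rw [h1]
    exact h3.trans (h4.trans h6)
  have e4 : ∫ p, ∑ k ∈ S, |Lm (s k) p| ∂Q ≤ ∫ p, |C0| * (af p + ag p + ah p) ∂Q := by
    refine integral_mono (integrable_finsetSum S (fun k _ => hLabs (s k))) ?_ e3
    exact ((hafi.add hagi).add hahi).const_mul _
  have e5 : ∫ p, |C0| * (af p + ag p + ah p) ∂Q
      = |C0| * ((∫ p, af p ∂Q) + (∫ p, ag p ∂Q) + (∫ p, ah p ∂Q)) := by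
    rw [integral_const_mul]
    congr 1
    have h1 : ∫ p, (af p + ag p + ah p) ∂Q = (∫ p, (af p + ag p) ∂Q) + ∫ p, ah p ∂Q :=
      integral_add (hafi.add hagi) hahi
    have h2 : ∫ p, (af p + ag p) ∂Q = (∫ p, af p ∂Q) + ∫ p, ag p ∂Q :=
      integral_add hafi hagi
    rw [h1, h2]
  have k1 : (4:ℝ) ^ L * ∫ p, af p ∂Q ≤ (eLpNorm f 3 volume).toReal ^ 3 := (a3_le N L f hf).1
  have k2 : (4:ℝ) ^ L * ∫ p, ag p ∂Q ≤ (eLpNorm g 3 volume).toReal ^ 3 := (a3_le N L g hg).2.1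
  have k3 : (4:ℝ) ^ L * ∫ p, ah p ∂Q ≤ (eLpNorm h 3 volume).toReal ^ 3 := (a3_le N L h hh).2.2
  calc ∑ k ∈ S, |T k f g h| ≤ (4:ℝ) ^ L * ∫ p, ∑ k ∈ S, |Lm (s k) p| ∂Q := e2
    _ ≤ (4:ℝ) ^ L * ∫ p, |C0| * (af p + ag p + ah p) ∂Q :=
        mul_le_mul_of_nonneg_left e4 (by positivity)
    _ = |C0| * ((4:ℝ) ^ L * (∫ p, af p ∂Q) + (4:ℝ) ^ L * (∫ p, ag p ∂Q)
          + (4:ℝ) ^ L * (∫ p, ah p ∂Q)) := by rw [e5]; ring
    _ ≤ _ := mul_le_mul_of_nonneg_left (by linarith) (abs_nonneg _)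

end X_sum_bound

export X_sum_bound (sum_bound)

end Pool.Agent.Helper519.TH
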