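import Pool.Agent.Helper519.TH.Defs
import Pool.Agent.Helper519.TH.M_sum_bound
import Pool.Agent.Helper519.TH.M_T_smul
import Pool.Agent.Helper519.TH.M_homog

set_option autoImplicit false

open MeasureTheory Set

noncomputable section

namespace Pool.Agent.Helper519.TH

namespace X_prod_bound

-- TARGET: prove this (auxiliary lemmas between the ASSUMED END line and the theorem)

theorem prod_nice_smul {f : ℝ × ℝ → ℝ} (hf : Nice f) (a : ℝ) : Nice (fun p => a * f p) := by
  obtain ⟨h1, h2, M, hM⟩ := hf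
  refine ⟨h1.const_mul a, h2.mul_left (f := fun _ => a), |a| * M, fun p => ?_⟩
  rw [abs_mul]
  exact mul_le_mul_of_nonneg_left (hM p) (abs_nonneg a)

theorem prod_norm_smul (f : ℝ × ℝ → ℝ) {a : ℝ} (ha : 0 < a) :
    (eLpNorm (fun p => a * f p) 3 volume).toReal = a * (eLpNorm f 3 volume).toReal := by
  have h : (fun p => a * f p) = a • f := by
    funext p
    simp
  rw [h, eLpNorm_const_smul, ENNReal.toReal_mul]
  congr 1
  simp [Real.enorm_eq_ofReal_abs, abs_of_pos ha, ENNReal.toReal_ofReal ha.le]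

theorem prod_bound (hFS : FSflat) : ∃ C : ℝ, ∀ (S : Finset ℤ) (f g h : ℝ × ℝ → ℝ),
    Nice f → Nice g → Nice h →
      ∑ k ∈ S, |T k f g h| ≤ C * (eLpNorm f 3 volume).toReal *
        (eLpNorm g 3 volume).toReal * (eLpNorm h 3 volume).toReal := by
  obtain ⟨C1, hC1⟩ := sum_bound hFS
  refine ⟨3 * |C1|, fun S f g h hf hg hh => ?_⟩
  refine homog (∑ k ∈ S, |T k f g h|) (eLpNorm f 3 volume).toReal (eLpNorm g 3 volume).toReal
    (eLpNorm h 3 volume).toReal C1 ENNReal.toReal_nonneg ENNReal.toReal_nonneg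
    ENNReal.toReal_nonneg (fun a b c ha hb hc => ?_)
  have key := hC1 S (fun p => a * f p) (fun p => b * g p) (fun p => c * h p)
    (prod_nice_smul hf a) (prod_nice_smul hg b) (prod_nice_smul hh c)
  rw [prod_norm_smul f ha, prod_norm_smul g hb, prod_norm_smul h hc] at key
  have h2 : ∑ k ∈ S, |T k (fun p => a * f p) (fun p => b * g p) (fun p => c * h p)| =
      a * b * c * ∑ k ∈ S, |T k f g h| := by
    rw [Finset.mul_sum]
    refine Finset.sum_congr rfl fun k _ => ?_
    rw [T_smul, abs_mul, abs_of_pos (by positivity : 0 < a * b * c)]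
  rw [h2] at key
  exact key

end X_prod_bound

export X_prod_bound (prod_bound)

end Pool.Agent.Helper519.TH
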