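import Pool.Agent.Helper519.TH.Defs
import Pool.Agent.Helper519.TH.M_prod_bound

set_option autoImplicit false

open MeasureTheory Set

noncomputable section

namespace Pool.Agent.Helper519.TH

namespace X_final

-- TARGET: prove this (auxiliary lemmas between the ASSUMED END line and the theorem)

theorem final (hFS : FSflat) :
    ∃ C : ℝ, ∀ (S : Finset ℤ) (ε : ℤ → ℝ), (∀ k, |ε k| ≤ 1) →
      ∀ f g h : ℝ × ℝ → ℝ,
        Measurable f → Measurable g → Measurable h →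
        HasCompactSupport f → HasCompactSupport g → HasCompactSupport h →
        (∃ M : ℝ, ∀ p, |f p| ≤ M) → (∃ M : ℝ, ∀ p, |g p| ≤ M) → (∃ M : ℝ, ∀ p, |h p| ≤ M) →
        |∑ k ∈ S, (2:ℝ) ^ (-k) * ε k *
            ∑' ab : ℕ × ℕ, ∫ x : ℝ, ∫ y : ℝ, ∫ z : ℝ,
              f (x, y) * g (y, z) * h (z, x) *
              (Set.indicator (Set.Ico ((2:ℝ) ^ k * (ab.1 : ℝ))
                  ((2:ℝ) ^ k * (ab.1 : ℝ) + (2:ℝ) ^ (k - 1))) (fun _ => (1:ℝ)) x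
                - Set.indicator (Set.Ico ((2:ℝ) ^ k * (ab.1 : ℝ) + (2:ℝ) ^ (k - 1))
                  ((2:ℝ) ^ k * ((ab.1 : ℝ) + 1))) (fun _ => (1:ℝ)) x) *
              (Set.indicator (Set.Ico ((2:ℝ) ^ k * (ab.2 : ℝ))
                  ((2:ℝ) ^ k * (ab.2 : ℝ) + (2:ℝ) ^ (k - 1))) (fun _ => (1:ℝ)) y
                - Set.indicator (Set.Ico ((2:ℝ) ^ k * (ab.2 : ℝ) + (2:ℝ) ^ (k - 1))
                  ((2:ℝ) ^ k * ((ab.2 : ℝ) + 1))) (fun _ => (1:ℝ)) y) *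
              (Set.indicator (Set.Ico ((2:ℝ) ^ k * ((ab.1 ^^^ ab.2 : ℕ) : ℝ))
                  ((2:ℝ) ^ k * ((ab.1 ^^^ ab.2 : ℕ) : ℝ) + (2:ℝ) ^ (k - 1))) (fun _ => (1:ℝ)) z
                - Set.indicator (Set.Ico ((2:ℝ) ^ k * ((ab.1 ^^^ ab.2 : ℕ) : ℝ) + (2:ℝ) ^ (k - 1))
                  ((2:ℝ) ^ k * (((ab.1 ^^^ ab.2 : ℕ) : ℝ) + 1))) (fun _ => (1:ℝ)) z)|
          ≤ C * (eLpNorm f 3 volume).toReal * (eLpNorm g 3 volume).toReal
              * (eLpNorm h 3 volume).toReal := by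
  obtain ⟨C, hC⟩ := prod_bound hFS
  refine ⟨C, fun S ε hε f g h hf hg hh hfc hgc hhc hfb hgb hhb => ?_⟩
  refine le_trans ?_ (hC S f g h ⟨hf, hfc, hfb⟩ ⟨hg, hgc, hgb⟩ ⟨hh, hhc, hhb⟩)
  refine (Finset.abs_sum_le_sum_abs _ _).trans (Finset.sum_le_sum fun k _ => ?_)
  have h1 : ∀ A : ℝ, |(2:ℝ) ^ (-k) * ε k * A| ≤ |(2:ℝ) ^ (-k) * A| := by
    intro A
    rw [abs_mul, abs_mul, abs_mul]
    have h2 : |ε k| ≤ 1 := hε k
    have h3 : 0 ≤ |(2:ℝ) ^ (-k)| := abs_nonneg _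
    have h4 : 0 ≤ |A| := abs_nonneg _
    nlinarith [mul_le_mul_of_nonneg_left h2 (mul_nonneg h3 h4)]
  exact h1 _

end X_final

export X_final (final)

end Pool.Agent.Helper519.TH
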